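import Mathlib

/-! Maximising measures of compact metric spaces. -/

set_option autoImplicit false

open MeasureTheory

namespace Pool.Agent.Q192.EM

/-- the energy `∬ exp (-d(x,y)) dμ(x) dμ(y)` of a measure on a metric space; the diversity of
order two is `1 / energy μ` -/
noncomputable def energy {X : Type*} [MetricSpace X] [MeasurableSpace X] (μ : Measure X) : ℝ :=
  ∫ x, ∫ y, Real.exp (-dist x y) ∂μ ∂μ

/-- maximising measures: the probability measures of least energy -/
def IsMaximising {X : Type*} [MetricSpace X] [MeasurableSpace X] (μ : Measure X) : Prop :=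
  IsProbabilityMeasure μ ∧ ∀ ν : Measure X, IsProbabilityMeasure ν → energy μ ≤ energy ν

end Pool.Agent.Q192.EM
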