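import Mathlib
import Pool.Agent.H329R3.PM.TaskRad

/-! Shell integrals of the exponential kernel in three dimensions (Archimedes). -/

set_option autoImplicit false

open MeasureTheory Metric Set Filter Topology
open scoped ENNReal NNReal RealInnerProductSpace

namespace Pool.Agent.Q192.EM

open Pool.Agent.H329R3.PM (E)
open Pool.Agent.H329R3.PM.TRad (zonal rot norm_sub_sq)

/-- open shell -/
def shell (p q : ℝ) : Set (E 3) := {x | p < ‖x‖ ∧ ‖x‖ < q}

theorem shell_meas (p q : ℝ) : MeasurableSet (shell p q) :=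
  (measurableSet_lt measurable_const measurable_norm).inter
    (measurableSet_lt measurable_norm measurable_const)

theorem shell_fin (p q : ℝ) : volume (shell p q) < ⊤ := by
  refine lt_of_le_of_lt (measure_mono (t := ball (0 : E 3) q) ?_) measure_ball_lt_top
  intro x hx
  rw [mem_ball_zero_iff]
  exact hx.2

/-- zonal functions on shells -/
theorem shell_int {F : ℝ → ℝ → ℝ} (hF : Continuous (fun p : ℝ × ℝ => F p.1 p.2))
    (h0 : ∀ a b, 0 ≤ F a b) {p q : ℝ} (hp : 0 ≤ p) :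
    ∫ x in shell p q, F (x 0) ‖x‖ =
      2 * Real.pi * ∫ ρ in Ioo p q, ρ * ∫ τ in (-ρ)..ρ, F τ ρ := by
  have hunc : Continuous (Function.uncurry (fun ρ τ : ℝ => F τ ρ)) := by
    simp only [Function.uncurry_def]
    exact hF.comp (continuous_snd.prodMk continuous_fst)
  have hin : Continuous (fun ρ : ℝ => ∫ τ in (-ρ)..ρ, F τ ρ) := by
    have h1 : Continuous (fun ρ : ℝ => ∫ τ in (0 : ℝ)..ρ, F τ ρ) :=
      intervalIntegral.continuous_parametric_intervalIntegral_of_continuous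
        (f := fun ρ τ => F τ ρ) (μ := volume) hunc continuous_id
    have h2 : Continuous (fun ρ : ℝ => ∫ τ in (0 : ℝ)..(-ρ), F τ ρ) :=
      intervalIntegral.continuous_parametric_intervalIntegral_of_continuous
        (f := fun ρ τ => F τ ρ) (μ := volume) hunc continuous_neg
    have h3 : (fun ρ : ℝ => ∫ τ in (-ρ)..ρ, F τ ρ) =
        fun ρ : ℝ => (∫ τ in (0 : ℝ)..ρ, F τ ρ) - ∫ τ in (0 : ℝ)..(-ρ), F τ ρ := by
      funext ρ
      have hcF : Continuous (fun τ : ℝ => F τ ρ) := hF.comp (continuous_id.prodMk continuous_const)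
      rw [intervalIntegral.integral_interval_sub_left (hcF.intervalIntegrable _ _)
        (hcF.intervalIntegrable _ _)]
    rw [h3]
    exact h1.sub h2
  have hc1 : Continuous (fun x : E 3 => F (x 0) ‖x‖) := by
    have : Continuous (fun x : E 3 => ((x 0 : ℝ), ‖x‖)) := by fun_prop
    exact hF.comp this
  rw [integral_eq_lintegral_of_nonneg_ae (Eventually.of_forall fun x => h0 _ _)
    hc1.aestronglyMeasurable]
  have hI : ∀ ρ : ℝ, 0 ≤ ρ → 0 ≤ ∫ τ in (-ρ)..ρ, F τ ρ := by
    intro ρ hρ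
    exact intervalIntegral.integral_nonneg (by linarith) (fun τ _ => h0 _ _)
  rw [integral_eq_lintegral_of_nonneg_ae]
  rotate_left
  · refine (ae_restrict_iff' measurableSet_Ioo).2 (Eventually.of_forall fun ρ hρ => ?_)
    have : 0 ≤ ρ := hp.trans hρ.1.le
    exact mul_nonneg this (hI ρ this)
  · exact (continuous_id.mul hin).aestronglyMeasurable
  have hz := zonal (F := fun τ ρ : ℝ => (Ioo p q).indicator (fun ρ => ENNReal.ofReal (F τ ρ)) ρ) (by
    have hS : MeasurableSet {z : ℝ × ℝ | p < z.2 ∧ z.2 < q} :=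
      (measurableSet_lt measurable_const measurable_snd).inter
        (measurableSet_lt measurable_snd measurable_const)
    have : (fun z : ℝ × ℝ => (Ioo p q).indicator (fun ρ => ENNReal.ofReal (F z.1 ρ)) z.2) =
        {z : ℝ × ℝ | p < z.2 ∧ z.2 < q}.indicator (fun z => ENNReal.ofReal (F z.1 z.2)) := by
      funext z
      by_cases hz : p < z.2 ∧ z.2 < q
      · rw [indicator_of_mem (show z.2 ∈ Ioo p q from hz),
          indicator_of_mem (show z ∈ {z : ℝ × ℝ | p < z.2 ∧ z.2 < q} from hz)]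
      · rw [indicator_of_notMem (show z.2 ∉ Ioo p q from hz),
          indicator_of_notMem (show z ∉ {z : ℝ × ℝ | p < z.2 ∧ z.2 < q} from hz)]
    rw [this]
    exact (ENNReal.measurable_ofReal.comp hF.measurable).indicator hS)
  simp only at hz
  have e1 : ∫⁻ x in shell p q, ENNReal.ofReal (F (x 0) ‖x‖) =
      ∫⁻ x : E 3, (Ioo p q).indicator (fun ρ => ENNReal.ofReal (F (x 0) ρ)) ‖x‖ := by
    rw [← lintegral_indicator (shell_meas p q)]
    refine lintegral_congr fun x => ?_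
    by_cases hx : p < ‖x‖ ∧ ‖x‖ < q
    · rw [indicator_of_mem (show x ∈ shell p q from hx), indicator_of_mem (show ‖x‖ ∈ Ioo p q from hx)]
    · rw [indicator_of_notMem (show x ∉ shell p q from hx),
        indicator_of_notMem (show ‖x‖ ∉ Ioo p q from hx)]
  rw [e1, hz]
  have e2 : ∫⁻ ρ in Ioi (0 : ℝ), ∫⁻ τ in Ioo (-ρ) ρ, ENNReal.ofReal ρ *
      (Ioo p q).indicator (fun ρ => ENNReal.ofReal (F τ ρ)) ρ =
      ∫⁻ ρ in Ioo p q, ENNReal.ofReal (ρ * ∫ τ in (-ρ)..ρ, F τ ρ) := by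
    rw [← lintegral_indicator measurableSet_Ioi, ← lintegral_indicator measurableSet_Ioo]
    refine lintegral_congr fun ρ => ?_
    by_cases hρ : ρ ∈ Ioo p q
    · have hρ0 : 0 < ρ := lt_of_le_of_lt hp hρ.1
      rw [indicator_of_mem hρ, indicator_of_mem (show ρ ∈ Ioi (0 : ℝ) from hρ0)]
      simp only [indicator_of_mem hρ]
      rw [lintegral_const_mul' _ _ ENNReal.ofReal_ne_top, ENNReal.ofReal_mul hρ0.le]
      congr 1
      rw [intervalIntegral.integral_of_le (by linarith), integral_Ioc_eq_integral_Ioo]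
      have hcF : Continuous (fun τ : ℝ => F τ ρ) := hF.comp (continuous_id.prodMk continuous_const)
      refine (ofReal_integral_eq_lintegral_ofReal ?_ (Eventually.of_forall fun τ => h0 _ _)).symm
      exact (hcF.integrableOn_Icc (a := -ρ) (b := ρ)).mono_set Ioo_subset_Icc_self
    · rw [indicator_of_notMem hρ]
      by_cases h2 : ρ ∈ Ioi (0 : ℝ)
      · rw [indicator_of_mem h2]
        simp only [indicator_of_notMem hρ]
        simp
      · rw [indicator_of_notMem h2]
  rw [e2, ENNReal.toReal_mul, ENNReal.toReal_ofReal (by positivity)]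

/-- spherical mean of the kernel -/
noncomputable def A (ρ r : ℝ) : ℝ :=
  (1 / 2) * ∫ t in (-1 : ℝ)..1, Real.exp (-√(r ^ 2 + ρ ^ 2 - 2 * r * (ρ * t)))

theorem A_cont : Continuous (fun z : ℝ × ℝ => A z.1 z.2) := by
  unfold A
  refine continuous_const.mul ?_
  apply intervalIntegral.continuous_parametric_intervalIntegral_of_continuous'
    (f := fun (z : ℝ × ℝ) (t : ℝ) => Real.exp (-√(z.2 ^ 2 + z.1 ^ 2 - 2 * z.2 * (z.1 * t))))
  simp only [Function.uncurry_def]
  fun_prop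

theorem A_nonneg (ρ r : ℝ) : 0 ≤ A ρ r := by
  unfold A
  have := intervalIntegral.integral_nonneg (a := (-1 : ℝ)) (b := 1) (μ := volume)
    (f := fun t => Real.exp (-√(r ^ 2 + ρ ^ 2 - 2 * r * (ρ * t)))) (by norm_num)
    (fun t _ => (Real.exp_pos _).le)
  positivity

theorem A_le (ρ r : ℝ) : A ρ r ≤ 1 := by
  unfold A
  have h : ∫ t in (-1 : ℝ)..1, Real.exp (-√(r ^ 2 + ρ ^ 2 - 2 * r * (ρ * t))) ≤
      ∫ t in (-1 : ℝ)..1, (1 : ℝ) := by
    apply intervalIntegral.integral_mono_on (by norm_num)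
    · apply Continuous.intervalIntegrable
      fun_prop
    · apply Continuous.intervalIntegrable
      fun_prop
    · intro t _
      rw [Real.exp_le_one_iff]
      have := Real.sqrt_nonneg (r ^ 2 + ρ ^ 2 - 2 * r * (ρ * t))
      linarith
  rw [intervalIntegral.integral_const] at h
  norm_num at h
  linarith

/-- the kernel over a shell -/
theorem shell_exp (y : E 3) {p q : ℝ} (hp : 0 ≤ p) :
    ∫ x in shell p q, Real.exp (-‖x - y‖) =
      4 * Real.pi * ∫ ρ in Ioo p q, ρ ^ 2 * A ρ ‖y‖ := by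
  obtain ⟨L, hL⟩ := rot y
  have hF : Continuous (fun z : ℝ × ℝ =>
      (fun τ ρ : ℝ => Real.exp (-√(‖y‖ ^ 2 + ρ ^ 2 - 2 * ‖y‖ * τ))) z.1 z.2) := by fun_prop
  have h := shell_int (F := fun τ ρ : ℝ => Real.exp (-√(‖y‖ ^ 2 + ρ ^ 2 - 2 * ‖y‖ * τ))) hF
    (fun _ _ => (Real.exp_pos _).le) (p := p) (q := q) hp
  simp only at h
  have h2 : ∫ x in shell p q, Real.exp (-√(‖y‖ ^ 2 + ‖x‖ ^ 2 - 2 * ‖y‖ * x 0)) =
      ∫ x in shell p q, Real.exp (-‖x - y‖) := by
    have hpre : L ⁻¹' (shell p q) = shell p q := by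
      ext x
      simp [shell]
    have h3 := L.measurePreserving.setIntegral_preimage_emb
      L.toHomeomorph.measurableEmbedding
      (fun x : E 3 => Real.exp (-√(‖y‖ ^ 2 + ‖x‖ ^ 2 - 2 * ‖y‖ * x 0))) (shell p q)
    rw [← h3, hpre]
    refine setIntegral_congr_fun (shell_meas p q) fun x _ => ?_
    simp only
    congr 2
    rw [← norm_sub_sq, ← hL, ← L.map_sub, L.norm_map, Real.sqrt_sq (norm_nonneg _), norm_sub_rev]
  rw [← h2, h]
  have h4 : ∀ ρ : ℝ, ρ * ∫ τ in (-ρ)..ρ, Real.exp (-√(‖y‖ ^ 2 + ρ ^ 2 - 2 * ‖y‖ * τ)) =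
      2 * (ρ ^ 2 * A ρ ‖y‖) := by
    intro ρ
    have h5 := intervalIntegral.smul_integral_comp_mul_left
      (f := fun τ => Real.exp (-√(‖y‖ ^ 2 + ρ ^ 2 - 2 * ‖y‖ * τ))) (a := -1) (b := 1) ρ
    simp only [mul_neg, mul_one, smul_eq_mul] at h5
    rw [← h5]
    unfold A
    ring
  simp_rw [h4]
  rw [integral_const_mul]
  ring

/-- volume of a shell -/
theorem shell_vol {p q : ℝ} (hp : 0 ≤ p) :
    ∫ _x in shell p q, (1 : ℝ) = 4 * Real.pi * ∫ ρ in Ioo p q, ρ ^ 2 := by
  have h := shell_int (F := fun _ _ => (1 : ℝ)) continuous_const (fun _ _ => zero_le_one)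
    (p := p) (q := q) hp
  rw [h]
  have h4 : ∀ ρ : ℝ, ρ * ∫ τ in (-ρ)..ρ, (1 : ℝ) = 2 * ρ ^ 2 := by
    intro ρ
    rw [intervalIntegral.integral_const]
    simp only [smul_eq_mul]
    ring
  simp_rw [h4]
  rw [integral_const_mul]
  ring

end Pool.Agent.Q192.EM
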