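import Mathlib
import Pool.Agent.Q192.EM.Zon

/-! Radial averages of potentials of the exponential kernel in three dimensions. -/

set_option autoImplicit false

open MeasureTheory Metric Set Filter Topology
open scoped ENNReal NNReal RealInnerProductSpace

namespace Pool.Agent.Q192.EM

open Pool.Agent.H329R3.PM (E)

/-- `(1 + t) exp (-t)` -/
noncomputable def g (t : ℝ) : ℝ := (1 + t) * Real.exp (-t)

theorem g_deriv (t : ℝ) : HasDerivAt g (-(t * Real.exp (-t))) t := by
  unfold g
  have h1 : HasDerivAt (fun t : ℝ => Real.exp (-t)) (Real.exp (-t) * (-1)) t :=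
    (hasDerivAt_neg t).exp
  have h2 := ((hasDerivAt_id t).const_add 1).mul h1
  refine h2.congr_deriv ?_
  simp only [id]
  ring

theorem A_closed {ρ r : ℝ} (hρ : 0 < ρ) (hr : 0 < r) :
    A ρ r = (g |ρ - r| - g (ρ + r)) / (2 * ρ * r) := by
  unfold A
  set G : ℝ → ℝ := fun t => g (√(r ^ 2 + ρ ^ 2 - 2 * r * (ρ * t))) / (r * ρ) with hG
  have hcg : Continuous g := by unfold g; fun_prop
  have hc : ContinuousOn G (Icc (-1) 1) := by
    apply Continuous.continuousOn
    rw [hG]
    refine Continuous.div_const (hcg.comp ?_) _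
    fun_prop
  have hd : ∀ t ∈ Ioo (-1 : ℝ) 1, HasDerivAt G
      (Real.exp (-√(r ^ 2 + ρ ^ 2 - 2 * r * (ρ * t)))) t := by
    intro t ht
    have hpos : 0 < r ^ 2 + ρ ^ 2 - 2 * r * (ρ * t) := by
      have h1 : 0 ≤ (r - ρ) ^ 2 := sq_nonneg _
      have h2 : 0 < r * ρ * (1 - t) := mul_pos (mul_pos hr hρ) (by linarith [ht.2])
      nlinarith
    have h1 : HasDerivAt (fun t : ℝ => r ^ 2 + ρ ^ 2 - 2 * r * (ρ * t)) (-(2 * r * ρ)) t := by
      have := (((hasDerivAt_id t).const_mul ρ).const_mul (2 * r)).const_sub (r ^ 2 + ρ ^ 2)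
      refine this.congr_deriv ?_
      ring
    have h2 := h1.sqrt hpos.ne'
    have h3 := (g_deriv (√(r ^ 2 + ρ ^ 2 - 2 * r * (ρ * t)))).comp t h2
    have h4 := h3.div_const (r * ρ)
    refine h4.congr_deriv ?_
    have hs : 0 < √(r ^ 2 + ρ ^ 2 - 2 * r * (ρ * t)) := Real.sqrt_pos.2 hpos
    generalize √(r ^ 2 + ρ ^ 2 - 2 * r * (ρ * t)) = s at hs ⊢
    field_simp
  have hint : IntervalIntegrable (fun t => Real.exp (-√(r ^ 2 + ρ ^ 2 - 2 * r * (ρ * t))))
      volume (-1) 1 := by
    apply Continuous.intervalIntegrable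
    fun_prop
  rw [intervalIntegral.integral_eq_sub_of_hasDerivAt_of_le (by norm_num) hc hd hint]
  simp only [hG]
  have e1 : r ^ 2 + ρ ^ 2 - 2 * r * (ρ * 1) = (ρ - r) ^ 2 := by ring
  have e2 : r ^ 2 + ρ ^ 2 - 2 * r * (ρ * (-1)) = (ρ + r) ^ 2 := by ring
  rw [e1, e2, Real.sqrt_sq_eq_abs, Real.sqrt_sq_eq_abs, abs_of_pos (by positivity : 0 < ρ + r)]
  field_simp

theorem A_zero_left {r : ℝ} (hr : 0 ≤ r) : A 0 r = Real.exp (-r) := by
  unfold A
  have : ∀ t : ℝ, Real.exp (-√(r ^ 2 + 0 ^ 2 - 2 * r * (0 * t))) = Real.exp (-r) := by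
    intro t
    have : r ^ 2 + 0 ^ 2 - 2 * r * (0 * t) = r ^ 2 := by ring
    rw [this, Real.sqrt_sq hr]
  simp_rw [this]
  rw [intervalIntegral.integral_const]
  simp only [smul_eq_mul]
  ring

theorem A_zero_right {ρ : ℝ} (hρ : 0 ≤ ρ) : A ρ 0 = Real.exp (-ρ) := by
  unfold A
  have : ∀ t : ℝ, Real.exp (-√((0 : ℝ) ^ 2 + ρ ^ 2 - 2 * 0 * (ρ * t))) = Real.exp (-ρ) := by
    intro t
    have : (0 : ℝ) ^ 2 + ρ ^ 2 - 2 * 0 * (ρ * t) = ρ ^ 2 := by ring
    rw [this, Real.sqrt_sq hρ]
  simp_rw [this]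
  rw [intervalIntegral.integral_const]
  simp only [smul_eq_mul]
  ring

section

variable (m : Measure (E 3)) [IsFiniteMeasure m]

/-- the potential -/
noncomputable def P (x : E 3) : ℝ := ∫ y, Real.exp (-‖x - y‖) ∂m

/-- the spherical mean of the potential -/
noncomputable def M (ρ : ℝ) : ℝ := ∫ y, A ρ ‖y‖ ∂m

omit [IsFiniteMeasure m] in
theorem kern_bd (x y : E 3) : ‖Real.exp (-‖x - y‖)‖ ≤ 1 := by
  rw [Real.norm_eq_abs, abs_of_pos (Real.exp_pos _), Real.exp_le_one_iff]
  linarith [norm_nonneg (x - y)]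

theorem kern_int (x : E 3) : Integrable (fun y => Real.exp (-‖x - y‖)) m := by
  refine Integrable.of_bound (C := 1) ?_ (Eventually.of_forall fun y => kern_bd x y)
  exact Continuous.aestronglyMeasurable (by fun_prop)

theorem A_int (ρ : ℝ) : Integrable (fun y => A ρ ‖y‖) m := by
  refine Integrable.of_bound (C := 1) ?_ (Eventually.of_forall fun y => ?_)
  · exact (A_cont.comp (continuous_const.prodMk continuous_norm)).aestronglyMeasurable
  · rw [Real.norm_eq_abs, abs_of_nonneg (A_nonneg _ _)]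
    exact A_le _ _

theorem M_cont : Continuous (M m) := by
  unfold M
  refine continuous_of_dominated (bound := fun _ => 1) ?_ ?_ (integrable_const _) ?_
  · intro ρ
    exact (A_int m ρ).aestronglyMeasurable
  · intro ρ
    refine Eventually.of_forall fun y => ?_
    rw [Real.norm_eq_abs, abs_of_nonneg (A_nonneg _ _)]
    exact A_le _ _
  · refine Eventually.of_forall fun y => ?_
    exact A_cont.comp (continuous_id.prodMk continuous_const)

/-- the potential is Lipschitz -/
theorem P_lip [IsProbabilityMeasure m] (x z : E 3) : P m x ≤ P m z + ‖x - z‖ := by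
  unfold P
  have h1 : ∀ y : E 3, Real.exp (-‖x - y‖) ≤ Real.exp (-‖z - y‖) + ‖x - z‖ := by
    intro y
    by_cases h : ‖z - y‖ ≤ ‖x - y‖
    · have : Real.exp (-‖x - y‖) ≤ Real.exp (-‖z - y‖) := Real.exp_le_exp.2 (by linarith)
      linarith [norm_nonneg (x - z)]
    · push Not at h
      have h2 : ‖z - y‖ ≤ ‖x - y‖ + ‖x - z‖ := by
        have : z - y = (x - y) - (x - z) := by abel
        rw [this]
        exact norm_sub_le _ _
      -- exp(-a) - exp(-b) ≤ b - a for 0 ≤ a ≤ b
      have h3 : Real.exp (-‖x - y‖) ≤ 1 := by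
        rw [Real.exp_le_one_iff]; linarith [norm_nonneg (x - y)]
      have h4 : Real.exp (-‖z - y‖) = Real.exp (-‖x - y‖) * Real.exp (-(‖z - y‖ - ‖x - y‖)) := by
        rw [← Real.exp_add]; congr 1; ring
      have h5 := Real.add_one_le_exp (-(‖z - y‖ - ‖x - y‖))
      have h6 := Real.exp_pos (-‖x - y‖)
      rw [h4]
      nlinarith
  have h2 : ∫ y, (Real.exp (-‖z - y‖) + ‖x - z‖) ∂m = (∫ y, Real.exp (-‖z - y‖) ∂m) + ‖x - z‖ := by
    rw [integral_add (kern_int m z) (integrable_const _)]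
    simp
  rw [← h2]
  exact integral_mono (kern_int m x) ((kern_int m z).add (integrable_const _)) h1

theorem P_cont : Continuous (P m) := by
  unfold P
  refine continuous_of_dominated (bound := fun _ => 1) ?_ ?_ (integrable_const _) ?_
  · intro x
    exact (kern_int m x).aestronglyMeasurable
  · intro x
    exact Eventually.of_forall fun y => kern_bd x y
  · refine Eventually.of_forall fun y => ?_
    fun_prop

/-- the shell average of the potential -/
theorem shell_M {p q : ℝ} (hp : 0 ≤ p) :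
    ∫ x in shell p q, P m x = 4 * Real.pi * ∫ ρ in Ioo p q, ρ ^ 2 * M m ρ := by
  have : IsFiniteMeasure ((volume : Measure (E 3)).restrict (shell p q)) :=
    ⟨by rw [Measure.restrict_apply_univ]; exact shell_fin p q⟩
  unfold P
  rw [integral_integral_swap]
  rotate_left
  · refine Integrable.of_bound (C := 1) ?_ (Eventually.of_forall fun z => kern_bd z.1 z.2)
    exact Continuous.aestronglyMeasurable (by simp only [Function.uncurry_def]; fun_prop)
  simp_rw [shell_exp _ hp]
  rw [integral_const_mul]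
  congr 1
  rw [integral_integral_swap]
  rotate_left
  · have hc : Continuous (fun z : E 3 × ℝ => z.2 ^ 2 * A z.2 ‖z.1‖) :=
      (continuous_snd.pow 2).mul (A_cont.comp (continuous_snd.prodMk continuous_fst.norm))
    refine Integrable.of_bound (C := (max |p| |q|) ^ 2) ?_ ?_
    · simp only [Function.uncurry_def]
      exact hc.aestronglyMeasurable
    · have hae : ∀ᵐ z : E 3 × ℝ ∂(m.prod ((volume : Measure ℝ).restrict (Ioo p q))), z.2 ∈ Ioo p q := by
        have := (Measure.quasiMeasurePreserving_snd (μ := m)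
          (ν := (volume : Measure ℝ).restrict (Ioo p q))).ae
          (p := fun z => z ∈ Ioo p q) (ae_restrict_mem measurableSet_Ioo)
        exact this
      filter_upwards [hae] with z hz
      simp only [Function.uncurry_def]
      rw [norm_mul, norm_pow, Real.norm_eq_abs, Real.norm_eq_abs, abs_of_nonneg (A_nonneg _ _)]
      have h1 : |z.2| ≤ max |p| |q| := abs_le_max_abs_abs hz.1.le hz.2.le
      have h2 := A_le z.2 ‖z.1‖
      have h3 := A_nonneg z.2 ‖z.1‖
      calc |z.2| ^ 2 * A z.2 ‖z.1‖ ≤ (max |p| |q|) ^ 2 * 1 := by gcongr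
        _ = _ := mul_one _
  refine setIntegral_congr_fun measurableSet_Ioo fun ρ _ => ?_
  exact integral_const_mul _ _

theorem shell_M_sub {p q c : ℝ} (hp : 0 ≤ p) :
    ∫ x in shell p q, (P m x - c) = 4 * Real.pi * ∫ ρ in Ioo p q, ρ ^ 2 * (M m ρ - c) := by
  have : IsFiniteMeasure ((volume : Measure (E 3)).restrict (shell p q)) :=
    ⟨by rw [Measure.restrict_apply_univ]; exact shell_fin p q⟩
  have i1 : Integrable (P m) ((volume : Measure (E 3)).restrict (shell p q)) := by
    refine Integrable.of_bound (C := (m.real univ)) (P_cont m).aestronglyMeasurable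
      (Eventually.of_forall fun x => ?_)
    unfold P
    refine (norm_integral_le_of_norm_le_const (Eventually.of_forall fun y => kern_bd x y)).trans ?_
    rw [one_mul]
  rw [integral_sub i1 (integrable_const _), shell_M m hp]
  have h1 : ∫ _x in shell p q, c = c * (4 * Real.pi * ∫ ρ in Ioo p q, ρ ^ 2) := by
    rw [← shell_vol hp, ← integral_const_mul]
    simp
  rw [h1]
  have h2 : ∀ ρ : ℝ, ρ ^ 2 * (M m ρ - c) = ρ ^ 2 * M m ρ - c * ρ ^ 2 := by intro ρ; ring
  simp_rw [h2]
  have hc1 : Continuous (fun ρ : ℝ => ρ ^ 2 * M m ρ) := (continuous_pow 2).mul (M_cont m)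
  have hc2 : Continuous (fun ρ : ℝ => c * ρ ^ 2) := by fun_prop
  rw [integral_sub (hc1.integrableOn_Icc.mono_set Ioo_subset_Icc_self)
    (hc2.integrableOn_Icc.mono_set Ioo_subset_Icc_self), integral_const_mul]
  ring

/-- if the potential is at least `c` in the ball, so are its means -/
theorem M_ge {R c : ℝ} (hR : 0 < R) (h : ∀ x : E 3, ‖x‖ < R → c ≤ P m x) {ρ : ℝ}
    (h0 : 0 ≤ ρ) (h1 : ρ ≤ R) : c ≤ M m ρ := by
  by_contra hlt
  push Not at hlt
  have hop : IsOpen {s : ℝ | M m s < c} := isOpen_lt (M_cont m) continuous_const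
  have hcl : ρ ∈ closure (Ioo 0 R) := by
    rw [closure_Ioo hR.ne]
    exact ⟨h0, h1⟩
  obtain ⟨s, hs1, hs2⟩ := mem_closure_iff.1 hcl _ hop hlt
  obtain ⟨ε, hε, hball⟩ := Metric.isOpen_iff.1 (hop.inter isOpen_Ioo) s ⟨hs1, hs2⟩
  have hp : 0 ≤ s - ε / 2 := by
    by_contra hcon
    push Not at hcon
    have : (s - ε / 2) ∈ ball s ε := by
      rw [mem_ball, Real.dist_eq]
      rw [show s - ε / 2 - s = -(ε / 2) by ring, abs_neg, abs_of_pos (by linarith)]
      linarith
    have := (hball this).2.1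
    linarith
  have hI : ∀ ρ ∈ Ioo (s - ε / 2) (s + ε / 2), M m ρ < c ∧ ρ ∈ Ioo 0 R := by
    intro ρ hρ
    have : ρ ∈ ball s ε := by
      rw [mem_ball, Real.dist_eq, abs_lt]
      constructor <;> linarith [hρ.1, hρ.2]
    exact hball this
  have h3 := shell_M_sub m (p := s - ε / 2) (q := s + ε / 2) (c := c) hp
  have h4 : 0 ≤ ∫ x in shell (s - ε / 2) (s + ε / 2), (P m x - c) := by
    refine setIntegral_nonneg (shell_meas _ _) fun x hx => ?_
    have := (hI _ hx).2.2
    have := h x this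
    linarith
  have h5 : 0 < ∫ ρ in (s - ε / 2)..(s + ε / 2), ρ ^ 2 * (c - M m ρ) := by
    apply intervalIntegral.intervalIntegral_pos_of_pos_on
    · apply Continuous.intervalIntegrable
      exact (continuous_pow 2).mul (continuous_const.sub (M_cont m))
    · intro ρ hρ
      have h6 := hI ρ hρ
      have : 0 < ρ := h6.2.1
      have : 0 < c - M m ρ := by linarith [h6.1]
      positivity
    · linarith
  rw [intervalIntegral.integral_of_le (by linarith), integral_Ioc_eq_integral_Ioo] at h5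
  have h6 : ∫ ρ in Ioo (s - ε / 2) (s + ε / 2), ρ ^ 2 * (M m ρ - c) =
      -∫ ρ in Ioo (s - ε / 2) (s + ε / 2), ρ ^ 2 * (c - M m ρ) := by
    rw [← integral_neg]
    refine integral_congr_ae (Eventually.of_forall fun ρ => ?_)
    simp only
    ring
  rw [h3, h6] at h4
  have := Real.pi_pos
  nlinarith

/-- if the potential is at most `c` on a sphere, so is the mean -/
theorem M_le [IsProbabilityMeasure m] {b c : ℝ} (hb : 0 < b)
    (h : ∀ x : E 3, ‖x‖ = b → P m x ≤ c) : M m b ≤ c := by
  by_contra hlt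
  push Not at hlt
  set ε := (M m b - c) / 2 with hε
  have hε0 : 0 < ε := by rw [hε]; linarith
  have hop : IsOpen {s : ℝ | c + ε < M m s} := isOpen_lt continuous_const (M_cont m)
  obtain ⟨δ, hδ, hball⟩ := Metric.isOpen_iff.1 hop b (by
    show c + ε < M m b
    rw [hε]; linarith)
  set η := min (min (δ / 2) (b / 2)) ε with hη
  have hη0 : 0 < η := lt_min (lt_min (by linarith) (by linarith)) hε0
  have hη1 : η ≤ δ / 2 := (min_le_left _ _).trans (min_le_left _ _)
  have hη2 : η ≤ b / 2 := (min_le_left _ _).trans (min_le_right _ _)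
  have hη3 : η ≤ ε := min_le_right _ _
  have hp : 0 ≤ b - η := by linarith
  have hI : ∀ ρ ∈ Ioo (b - η) b, c + ε < M m ρ := by
    intro ρ hρ
    have : ρ ∈ ball b δ := by
      rw [mem_ball, Real.dist_eq, abs_lt]
      constructor <;> linarith [hρ.1, hρ.2]
    exact hball this
  have h3 := shell_M_sub m (p := b - η) (q := b) (c := c + ε) hp
  have h4 : ∫ x in shell (b - η) b, (P m x - (c + ε)) ≤ 0 := by
    refine setIntegral_nonpos (shell_meas _ _) fun x hx => ?_
    have hx0 : 0 < ‖x‖ := lt_of_le_of_lt hp hx.1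
    have h5 := P_lip m x ((b / ‖x‖) • x)
    have h6 : ‖(b / ‖x‖) • x‖ = b := by
      rw [norm_smul, Real.norm_eq_abs, abs_of_pos (by positivity)]
      field_simp
    have h7 : ‖x - (b / ‖x‖) • x‖ = b - ‖x‖ := by
      have : x - (b / ‖x‖) • x = (1 - b / ‖x‖) • x := by rw [sub_smul, one_smul]
      rw [this, norm_smul, Real.norm_eq_abs, abs_of_nonpos]
      · field_simp
        ring
      · rw [sub_nonpos, le_div_iff₀ hx0]
        linarith [hx.2]
    have h8 := h _ h6
    rw [h7] at h5
    linarith [hx.1]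
  have h5 : 0 < ∫ ρ in (b - η)..b, ρ ^ 2 * (M m ρ - (c + ε)) := by
    apply intervalIntegral.intervalIntegral_pos_of_pos_on
    · apply Continuous.intervalIntegrable
      exact (continuous_pow 2).mul ((M_cont m).sub continuous_const)
    · intro ρ hρ
      have h6 := hI ρ hρ
      have : 0 < ρ := lt_of_le_of_lt hp hρ.1
      have : 0 < M m ρ - (c + ε) := by linarith
      positivity
    · linarith
  rw [intervalIntegral.integral_of_le (by linarith), integral_Ioc_eq_integral_Ioo] at h5
  rw [h3] at h4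
  have := Real.pi_pos
  nlinarith

end

end Pool.Agent.Q192.EM
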