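import Mathlib
import Pool.Agent.Q192.EM.Pot

/-! One variable analysis of the radial means. -/

set_option autoImplicit false

open MeasureTheory Metric Set Filter Topology
open scoped ENNReal NNReal RealInnerProductSpace

namespace Pool.Agent.Q192.EM

open Pool.Agent.H329R3.PM (E)

/-- second derivative test -/
theorem neg_near {w w1 w2 : ℝ → ℝ} (hw : ∀ x, HasDerivAt w (w1 x) x)
    (hw1 : ∀ x, HasDerivAt w1 (w2 x) x) (hc : Continuous w2) {x0 : ℝ} (h0 : w x0 = 0)
    (h1 : w1 x0 = 0) (h2 : w2 x0 < 0) : ∃ δ > 0, ∀ x, x ≠ x0 → |x - x0| < δ → w x < 0 := by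
  have hop : IsOpen {x : ℝ | w2 x < 0} := isOpen_lt hc continuous_const
  obtain ⟨δ, hδ, hball⟩ := Metric.isOpen_iff.1 hop x0 h2
  have hb : ∀ x, |x - x0| < δ → w2 x < 0 := fun x hx => hball (by
    rw [mem_ball, Real.dist_eq]; exact hx)
  refine ⟨δ, hδ, fun x hx hxd => ?_⟩
  rw [abs_lt] at hxd
  have hcw : Continuous w := continuous_iff_continuousAt.2 fun x => (hw x).continuousAt
  have hcw1 : Continuous w1 := continuous_iff_continuousAt.2 fun x => (hw1 x).continuousAt
  rcases lt_or_gt_of_ne hx with hlt | hgt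
  · have a1 : StrictAntiOn w1 (Icc x x0) := by
      apply strictAntiOn_of_deriv_neg (convex_Icc _ _) hcw1.continuousOn
      intro y hy
      rw [interior_Icc] at hy
      rw [(hw1 y).deriv]
      apply hb
      rw [abs_lt]
      constructor <;> linarith [hy.1, hy.2, hxd.1]
    have a2 : StrictMonoOn w (Icc x x0) := by
      apply strictMonoOn_of_deriv_pos (convex_Icc _ _) hcw.continuousOn
      intro y hy
      rw [interior_Icc] at hy
      rw [(hw y).deriv]
      have := a1 (show y ∈ Icc x x0 from ⟨hy.1.le, hy.2.le⟩) (right_mem_Icc.2 hlt.le) hy.2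
      rwa [h1] at this
    have := a2 (left_mem_Icc.2 hlt.le) (right_mem_Icc.2 hlt.le) hlt
    rwa [h0] at this
  · have a1 : StrictAntiOn w1 (Icc x0 x) := by
      apply strictAntiOn_of_deriv_neg (convex_Icc _ _) hcw1.continuousOn
      intro y hy
      rw [interior_Icc] at hy
      rw [(hw1 y).deriv]
      apply hb
      rw [abs_lt]
      constructor <;> linarith [hy.1, hy.2, hxd.2]
    have a2 : StrictAntiOn w (Icc x0 x) := by
      apply strictAntiOn_of_deriv_neg (convex_Icc _ _) hcw.continuousOn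
      intro y hy
      rw [interior_Icc] at hy
      rw [(hw y).deriv]
      have := a1 (left_mem_Icc.2 hgt.le) (show y ∈ Icc x0 x from ⟨hy.1.le, hy.2.le⟩) hy.1
      rwa [h1] at this
    have := a2 (left_mem_Icc.2 hgt.le) (right_mem_Icc.2 hgt.le) hgt
    rwa [h0] at this

theorem sinh_secant {ρ b : ℝ} (h0 : 0 < ρ) (h1 : ρ < b) :
    b * Real.sinh ρ < ρ * Real.sinh b := by
  have hconv : StrictConvexOn ℝ (Ici 0) Real.sinh := by
    apply strictConvexOn_of_deriv2_pos (convex_Ici 0) Real.continuous_sinh.continuousOn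
    intro x hx
    rw [interior_Ici] at hx
    simp only [Function.iterate_succ, Function.iterate_zero, Function.comp, id,
      Real.deriv_sinh, Real.deriv_cosh]
    exact Real.sinh_pos_iff.2 hx
  have hb : 0 < b := h0.trans h1
  have := hconv.2 (mem_Ici.2 (le_refl (0 : ℝ))) (mem_Ici.2 hb.le) hb.ne
    (show 0 < 1 - ρ / b by rw [sub_pos, div_lt_one hb]; exact h1) (show 0 < ρ / b by positivity)
    (by ring)
  simp only [smul_eq_mul, mul_zero, zero_add, Real.sinh_zero] at this
  rw [div_mul_cancel₀ _ hb.ne'] at this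
  rw [div_mul_eq_mul_div, lt_div_iff₀ hb] at this
  linarith

/-- the function `w` of the gap around the origin -/
noncomputable def wf (α β c ρ : ℝ) : ℝ := α * Real.sinh ρ - β * (ρ * Real.cosh ρ) - c * ρ
noncomputable def wf1 (α β c ρ : ℝ) : ℝ :=
  α * Real.cosh ρ - β * (Real.cosh ρ + ρ * Real.sinh ρ) - c
noncomputable def wf2 (α β ρ : ℝ) : ℝ :=
  α * Real.sinh ρ - β * (2 * Real.sinh ρ + ρ * Real.cosh ρ)

theorem wf_deriv (α β c ρ : ℝ) : HasDerivAt (wf α β c) (wf1 α β c ρ) ρ := by
  unfold wf wf1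
  have h1 := (Real.hasDerivAt_sinh ρ).const_mul α
  have h2 := (((hasDerivAt_id ρ).mul (Real.hasDerivAt_cosh ρ))).const_mul β
  have h3 := (hasDerivAt_id ρ).const_mul c
  refine ((h1.sub h2).sub h3).congr_deriv ?_
  simp only [id]
  ring

theorem wf1_deriv (α β c ρ : ℝ) : HasDerivAt (wf1 α β c) (wf2 α β ρ) ρ := by
  unfold wf1 wf2
  have h1 := (Real.hasDerivAt_cosh ρ).const_mul α
  have h2 := ((Real.hasDerivAt_cosh ρ).add
    ((hasDerivAt_id ρ).mul (Real.hasDerivAt_sinh ρ))).const_mul β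
  refine ((h1.sub h2).sub_const c).congr_deriv ?_
  simp only [id]
  ring

/-- clamped positivity -/
theorem clamp {α β c b : ℝ} (hb : 0 < b) (hβ : 0 < β)
    (h0 : ∀ ρ ∈ Icc 0 b, 0 ≤ wf α β c ρ) (h1 : wf α β c b = 0) (h2 : wf1 α β c b = 0) : False := by
  have hv : 2 * β * Real.sinh b - c * b ≤ 0 := by
    by_contra hcon
    push Not at hcon
    have hneg : wf2 α β b < 0 := by
      have : wf2 α β b = wf α β c b - (2 * β * Real.sinh b - c * b) := by
        unfold wf2 wf; ring
      rw [this, h1]; linarith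
    have hc2 : Continuous (wf2 α β) := by
      unfold wf2
      have := Real.continuous_sinh
      have := Real.continuous_cosh
      fun_prop
    obtain ⟨δ, hδ, hn⟩ := neg_near (wf_deriv α β c) (wf1_deriv α β c) hc2 h1 h2 hneg
    have hx : 0 < min (δ / 2) (b / 2) := lt_min (by linarith) (by linarith)
    have := hn (b - min (δ / 2) (b / 2)) (by linarith) (by
      rw [show b - min (δ / 2) (b / 2) - b = -min (δ / 2) (b / 2) by ring, abs_neg, abs_of_pos hx]
      exact lt_of_le_of_lt (min_le_left _ _) (by linarith))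
    have h3 := h0 (b - min (δ / 2) (b / 2)) ⟨by
      have := min_le_right (δ / 2) (b / 2)
      linarith, by linarith⟩
    linarith
  -- the Wronskian
  have hd : ∀ ρ, HasDerivAt (fun ρ => wf α β c ρ * Real.cosh ρ - wf1 α β c ρ * Real.sinh ρ)
      ((2 * β * Real.sinh ρ - c * ρ) * Real.sinh ρ) ρ := by
    intro ρ
    have h3 := (wf_deriv α β c ρ).mul (Real.hasDerivAt_cosh ρ)
    have h4 := (wf1_deriv α β c ρ).mul (Real.hasDerivAt_sinh ρ)
    refine (h3.sub h4).congr_deriv ?_
    unfold wf wf1 wf2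
    ring
  have hanti : StrictAntiOn (fun ρ => wf α β c ρ * Real.cosh ρ - wf1 α β c ρ * Real.sinh ρ)
      (Icc 0 b) := by
    apply strictAntiOn_of_deriv_neg (convex_Icc _ _)
    · exact fun x _ => (hd x).continuousAt.continuousWithinAt
    · intro ρ hρ
      rw [interior_Icc] at hρ
      rw [(hd ρ).deriv]
      have h3 := sinh_secant hρ.1 hρ.2
      have h4 : 0 < Real.sinh ρ := Real.sinh_pos_iff.2 hρ.1
      have h5 : 2 * β * Real.sinh ρ - c * ρ < 0 := by
        have h6 : 2 * β * (b * Real.sinh ρ) < 2 * β * (ρ * Real.sinh b) :=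
          mul_lt_mul_of_pos_left h3 (by linarith)
        have h7 : ρ * (2 * β * Real.sinh b - c * b) ≤ 0 :=
          mul_nonpos_of_nonneg_of_nonpos hρ.1.le hv
        have h8 : b * (2 * β * Real.sinh ρ - c * ρ) < 0 := by nlinarith
        by_contra hcon
        push Not at hcon
        have := mul_nonneg hb.le hcon
        linarith
      exact mul_neg_of_neg_of_pos h5 h4
  have := hanti (left_mem_Icc.2 hb.le) (right_mem_Icc.2 hb.le) hb
  simp only [h1, h2] at this
  unfold wf at this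
  simp at this

section

variable (m : Measure (E 3)) [IsProbabilityMeasure m]

noncomputable def al : ℝ := ∫ y, (1 + ‖y‖) * Real.exp (-‖y‖) / ‖y‖ ∂m
noncomputable def be : ℝ := ∫ y, Real.exp (-‖y‖) / ‖y‖ ∂m

/-- inside formula for the kernel -/
theorem A_in {ρ s : ℝ} (hρ : 0 < ρ) (hs : ρ ≤ s) :
    ρ * A ρ s = (1 + s) * Real.exp (-s) / s * Real.sinh ρ -
      Real.exp (-s) / s * (ρ * Real.cosh ρ) := by
  have hs0 : 0 < s := hρ.trans_le hs
  rw [A_closed hρ hs0, abs_of_nonpos (by linarith)]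
  unfold g
  rw [Real.sinh_eq, Real.cosh_eq]
  have e1 : Real.exp (-(-(ρ - s))) = Real.exp ρ * Real.exp (-s) := by
    rw [← Real.exp_add]; congr 1; ring
  have e2 : Real.exp (-(ρ + s)) = Real.exp (-ρ) * Real.exp (-s) := by
    rw [← Real.exp_add]; congr 1; ring
  rw [e1, e2]
  field_simp
  ring

/-- outside estimate for the kernel -/
theorem A_out {ρ s : ℝ} (hs : 0 < s) (hsρ : s < ρ) (h1 : ρ ≤ s + 1) :
    ρ * A ρ s ≤ (1 + s) * Real.exp (-s) / s * Real.sinh ρ -
      Real.exp (-s) / s * (ρ * Real.cosh ρ) + (ρ - s) ^ 2 / (2 * s) := by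
  have hρ : 0 < ρ := hs.trans hsρ
  rw [A_closed hρ hs, abs_of_pos (by linarith)]
  have h2 : g (ρ - s) ≤ 1 := by
    unfold g
    have h3 := Real.add_one_le_exp (ρ - s)
    rw [Real.exp_neg, ← div_eq_mul_inv, div_le_one (Real.exp_pos _)]
    linarith
  have h3 : 1 - (ρ - s) ^ 2 ≤ (1 + s - ρ) * (Real.exp ρ * Real.exp (-s)) := by
    have h4 := Real.add_one_le_exp (ρ - s)
    have h5 : Real.exp ρ * Real.exp (-s) = Real.exp (ρ - s) := by
      rw [← Real.exp_add]; congr 1
    rw [h5]
    have h6 : 0 ≤ 1 + s - ρ := by linarith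
    nlinarith
  have e2 : g (ρ + s) = (1 + (ρ + s)) * (Real.exp (-ρ) * Real.exp (-s)) := by
    unfold g
    rw [← Real.exp_add]
    congr 2
    ring
  have h6 : (1 + s) * Real.exp (-s) / s * Real.sinh ρ -
      Real.exp (-s) / s * (ρ * Real.cosh ρ) = ((1 + s - ρ) * (Real.exp ρ * Real.exp (-s)) -
        (1 + (ρ + s)) * (Real.exp (-ρ) * Real.exp (-s))) / (2 * s) := by
    rw [Real.sinh_eq, Real.cosh_eq]
    field_simp
    ring
  rw [h6, e2]
  have h7 : ρ * ((g (ρ - s) - (1 + (ρ + s)) * (Real.exp (-ρ) * Real.exp (-s))) / (2 * ρ * s)) =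
      (g (ρ - s) - (1 + (ρ + s)) * (Real.exp (-ρ) * Real.exp (-s))) / (2 * s) := by
    field_simp
  rw [h7, ← add_div]
  apply div_le_div_of_nonneg_right _ (by positivity)
  linarith

theorem al_int {b : ℝ} (hb : 0 < b) (h : ∀ᵐ y ∂m, y = 0 ∨ b ≤ ‖y‖) :
    Integrable (fun y => (1 + ‖y‖) * Real.exp (-‖y‖) / ‖y‖) m := by
  refine Integrable.of_bound (C := 1 / b) ?_ ?_
  · apply Measurable.aestronglyMeasurable
    fun_prop
  · filter_upwards [h] with y hy
    rcases hy with rfl | hy
    · simp only [norm_zero, div_zero]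
      positivity
    · have h0 : 0 < ‖y‖ := hb.trans_le hy
      rw [Real.norm_eq_abs, abs_of_nonneg (by positivity)]
      have h1 : (1 + ‖y‖) * Real.exp (-‖y‖) ≤ 1 := by
        rw [Real.exp_neg, ← div_eq_mul_inv, div_le_one (Real.exp_pos _)]
        linarith [Real.add_one_le_exp ‖y‖]
      exact div_le_div₀ zero_le_one h1 hb hy

theorem be_int {b : ℝ} (hb : 0 < b) (h : ∀ᵐ y ∂m, y = 0 ∨ b ≤ ‖y‖) :
    Integrable (fun y => Real.exp (-‖y‖) / ‖y‖) m := by
  refine Integrable.of_bound (C := 1 / b) ?_ ?_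
  · apply Measurable.aestronglyMeasurable
    fun_prop
  · filter_upwards [h] with y hy
    rcases hy with rfl | hy
    · simp only [norm_zero, div_zero]
      positivity
    · have h0 : 0 < ‖y‖ := hb.trans_le hy
      rw [Real.norm_eq_abs, abs_of_nonneg (by positivity)]
      have h1 : Real.exp (-‖y‖) ≤ 1 := by
        rw [Real.exp_le_one_iff]
        linarith
      exact div_le_div₀ zero_le_one h1 hb hy

/-- the mean inside the gap around the origin -/
theorem M_in {b : ℝ} (hb : 0 < b) (h : ∀ᵐ y ∂m, y = 0 ∨ b ≤ ‖y‖) {ρ : ℝ} (hρ : 0 < ρ)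
    (hρb : ρ ≤ b) :
    ρ * M m ρ = m.real {0} * (ρ * Real.exp (-ρ)) + (al m * Real.sinh ρ -
      be m * (ρ * Real.cosh ρ)) := by
  unfold M al be
  rw [← integral_const_mul, ← integral_mul_const, ← integral_mul_const, ← integral_sub
    ((al_int m hb h).mul_const _) ((be_int m hb h).mul_const _)]
  have e0 : m.real {0} * (ρ * Real.exp (-ρ)) =
      ∫ y, ({0} : Set (E 3)).indicator (fun _ => ρ * Real.exp (-ρ)) y ∂m := by
    rw [integral_indicator_const _ (measurableSet_singleton _)]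
    simp
  rw [e0, ← integral_add]
  · refine integral_congr_ae ?_
    filter_upwards [h] with y hy
    rcases hy with rfl | hy
    · rw [indicator_of_mem (mem_singleton _)]
      simp only [norm_zero, div_zero, zero_mul, sub_zero, add_zero]
      rw [A_zero_right hρ.le]
    · have h0 : 0 < ‖y‖ := hb.trans_le hy
      rw [indicator_of_notMem (by
        intro h1
        rw [mem_singleton_iff] at h1
        rw [h1, norm_zero] at h0
        exact lt_irrefl _ h0), zero_add]
      exact A_in hρ (hρb.trans hy)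
  · exact (integrable_const _).indicator (measurableSet_singleton _)
  · exact ((al_int m hb h).mul_const _).sub ((be_int m hb h).mul_const _)

/-- the mean beyond the gap around the origin -/
theorem M_out {b : ℝ} (hb : 0 < b) (h : ∀ᵐ y ∂m, b ≤ ‖y‖) {ρ : ℝ} (hρ : b < ρ)
    (hρb : ρ ≤ b + 1) :
    ρ * M m ρ ≤ al m * Real.sinh ρ - be m * (ρ * Real.cosh ρ) + (ρ - b) ^ 2 / (2 * b) := by
  have h' : ∀ᵐ y ∂m, y = 0 ∨ b ≤ ‖y‖ := h.mono fun y hy => Or.inr hy
  unfold M al be
  rw [← integral_const_mul, ← integral_mul_const, ← integral_mul_const, ← integral_sub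
    ((al_int m hb h').mul_const _) ((be_int m hb h').mul_const _)]
  have e0 : (ρ - b) ^ 2 / (2 * b) = ∫ _y : E 3, (ρ - b) ^ 2 / (2 * b) ∂m := by simp
  have hI : Integrable (fun y => (1 + ‖y‖) * Real.exp (-‖y‖) / ‖y‖ * Real.sinh ρ -
      Real.exp (-‖y‖) / ‖y‖ * (ρ * Real.cosh ρ)) m :=
    ((al_int m hb h').mul_const _).sub ((be_int m hb h').mul_const _)
  rw [e0, ← integral_add hI (integrable_const _)]
  refine integral_mono_ae ((A_int m ρ).const_mul ρ)
    ((((al_int m hb h').mul_const _).sub ((be_int m hb h').mul_const _)).add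
      (integrable_const _)) ?_
  filter_upwards [h] with y hy
  have h0 : 0 < ‖y‖ := hb.trans_le hy
  rcases le_or_gt ρ ‖y‖ with h1 | h1
  · have := A_in (hb.trans hρ) h1
    rw [this]
    have : 0 ≤ (ρ - b) ^ 2 / (2 * b) := by positivity
    linarith
  · have h2 := A_out h0 h1 (by linarith)
    have h3 : (ρ - ‖y‖) ^ 2 / (2 * ‖y‖) ≤ (ρ - b) ^ 2 / (2 * b) := by
      apply div_le_div₀ (by positivity) _ (by positivity) (by linarith)
      apply pow_le_pow_left₀ (by linarith)
      linarith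
    linarith

theorem be_pos {b : ℝ} (hb : 0 < b) (h : ∀ᵐ y ∂m, b ≤ ‖y‖) : 0 < be m := by
  unfold be
  have h' : ∀ᵐ y ∂m, y = 0 ∨ b ≤ ‖y‖ := h.mono fun y hy => Or.inr hy
  rw [integral_pos_iff_support_of_nonneg (fun y => by positivity) (be_int m hb h')]
  rw [pos_iff_ne_zero]
  intro h0
  have h1 : ∀ᵐ y ∂m, False := by
    filter_upwards [measure_eq_zero_iff_ae_notMem.1 h0, h] with y hy hy2
    apply hy
    rw [Function.mem_support]
    have : 0 < ‖y‖ := hb.trans_le hy2
    positivity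
  obtain ⟨_, h2⟩ := h1.exists
  exact h2

/-- no gap around the origin that ends inside the ball -/
theorem excl_mid {b R c : ℝ} (hb : 0 < b) (hbR : b < R) (h : ∀ᵐ y ∂m, b ≤ ‖y‖)
    (hge : ∀ ρ, 0 ≤ ρ → ρ ≤ R → c ≤ M m ρ) (hle : M m b ≤ c) : False := by
  have h' : ∀ᵐ y ∂m, y = 0 ∨ b ≤ ‖y‖ := h.mono fun y hy => Or.inr hy
  have hz : m.real {0} = 0 := by
    rw [measureReal_eq_zero_iff]
    rw [measure_eq_zero_iff_ae_notMem]
    filter_upwards [h] with y hy h0
    rw [mem_singleton_iff] at h0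
    rw [h0, norm_zero] at hy
    linarith
  have hin : ∀ ρ, 0 < ρ → ρ ≤ b → wf (al m) (be m) c ρ = ρ * (M m ρ - c) := by
    intro ρ h1 h2
    have := M_in m hb h' h1 h2
    rw [hz, zero_mul, zero_add] at this
    unfold wf
    rw [mul_sub, this]
    ring
  have h0 : ∀ ρ ∈ Icc 0 b, 0 ≤ wf (al m) (be m) c ρ := by
    intro ρ hρ
    rcases hρ.1.eq_or_lt with h1 | h1
    · rw [← h1]
      unfold wf
      simp
    · rw [hin ρ h1 hρ.2]
      have := hge ρ hρ.1 (hρ.2.trans hbR.le)
      exact mul_nonneg hρ.1 (by linarith)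
  have h1 : wf (al m) (be m) c b = 0 := by
    rw [hin b hb le_rfl, le_antisymm hle (hge b hb.le hbR.le)]
    ring
  refine clamp (c := c) hb (be_pos m hb h) h0 h1 ?_
  have hmin : IsLocalMin (fun ρ => wf (al m) (be m) c ρ + (ρ - b) ^ 2 / (2 * b)) b := by
    have hn : Ioo 0 (min R (b + 1)) ∈ 𝓝 b := Ioo_mem_nhds hb (lt_min hbR (by linarith))
    filter_upwards [hn] with ρ hρ
    have e1 : wf (al m) (be m) c b + (b - b) ^ 2 / (2 * b) = 0 := by
      rw [h1]
      simp
    rw [e1]
    rcases le_or_gt ρ b with h2 | h2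
    · have := h0 ρ ⟨hρ.1.le, h2⟩
      have : 0 ≤ (ρ - b) ^ 2 / (2 * b) := by positivity
      linarith
    · have h3 := M_out m hb h h2 (hρ.2.le.trans (min_le_right _ _))
      have h4 := hge ρ hρ.1.le (hρ.2.le.trans (min_le_left _ _))
      have h5 : ρ * c ≤ ρ * M m ρ := mul_le_mul_of_nonneg_left h4 hρ.1.le
      unfold wf
      linarith
  have hd : HasDerivAt (fun ρ => wf (al m) (be m) c ρ + (ρ - b) ^ 2 / (2 * b))
      (wf1 (al m) (be m) c b) b := by
    have h2 := ((((hasDerivAt_id b).sub_const b).pow 2).div_const (2 * b))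
    refine ((wf_deriv (al m) (be m) c b).add h2).congr_deriv ?_
    simp
  exact hmin.hasDerivAt_eq_zero hd

/-- no atom at the origin which is isolated in the support -/
theorem excl_zero {δ R c : ℝ} (hδ : 0 < δ) (hR : 0 < R) (h : ∀ᵐ y ∂m, y = 0 ∨ δ ≤ ‖y‖)
    (hat : 0 < m.real {0})
    (hge : ∀ ρ, 0 ≤ ρ → ρ ≤ R → c ≤ M m ρ) (hle : M m 0 ≤ c) : False := by
  have hM0 : M m 0 = m.real {0} + al m - be m := by
    unfold M al be
    rw [add_sub_assoc, ← integral_sub (al_int m hδ h) (be_int m hδ h)]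
    have e0 : m.real {0} = ∫ y, ({0} : Set (E 3)).indicator (fun _ => (1 : ℝ)) y ∂m := by
      rw [integral_indicator_const _ (measurableSet_singleton _)]
      simp
    rw [e0, ← integral_add]
    · refine integral_congr_ae ?_
      filter_upwards [h] with y hy
      rw [A_zero_left (norm_nonneg _)]
      rcases hy with rfl | hy
      · rw [indicator_of_mem (mem_singleton _)]
        simp
      · have h0 : 0 < ‖y‖ := hδ.trans_le hy
        rw [indicator_of_notMem (by
          intro h1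
          rw [mem_singleton_iff] at h1
          rw [h1, norm_zero] at h0
          exact lt_irrefl _ h0), zero_add]
        field_simp
        ring
    · exact (integrable_const _).indicator (measurableSet_singleton _)
    · exact (al_int m hδ h).sub (be_int m hδ h)
  have hc : c = m.real {0} + al m - be m := by
    rw [← hM0]
    exact le_antisymm (hge 0 le_rfl hR.le) hle
  set ν := m.real {0} with hν
  have hd1 : ∀ ρ, HasDerivAt (fun ρ => ν * (ρ * Real.exp (-ρ)) + wf (al m) (be m) c ρ)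
      (ν * ((1 - ρ) * Real.exp (-ρ)) + wf1 (al m) (be m) c ρ) ρ := by
    intro ρ
    have h1 : HasDerivAt (fun t : ℝ => Real.exp (-t)) (Real.exp (-ρ) * (-1)) ρ :=
      (hasDerivAt_neg ρ).exp
    have h2 := (((hasDerivAt_id ρ).mul h1)).const_mul ν
    refine (h2.add (wf_deriv (al m) (be m) c ρ)).congr_deriv ?_
    simp only [id]
    ring
  have hd2 : ∀ ρ, HasDerivAt (fun ρ => ν * ((1 - ρ) * Real.exp (-ρ)) + wf1 (al m) (be m) c ρ)
      (ν * ((ρ - 2) * Real.exp (-ρ)) + wf2 (al m) (be m) ρ) ρ := by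
    intro ρ
    have h1 : HasDerivAt (fun t : ℝ => Real.exp (-t)) (Real.exp (-ρ) * (-1)) ρ :=
      (hasDerivAt_neg ρ).exp
    have h2 := ((((hasDerivAt_id ρ).const_sub 1).mul h1)).const_mul ν
    refine (h2.add (wf1_deriv (al m) (be m) c ρ)).congr_deriv ?_
    simp only [id]
    ring
  have hc2 : Continuous (fun ρ => ν * ((ρ - 2) * Real.exp (-ρ)) + wf2 (al m) (be m) ρ) := by
    unfold wf2
    have := Real.continuous_sinh
    have := Real.continuous_cosh
    fun_prop
  obtain ⟨ε, hε, hn⟩ := neg_near (x0 := 0) hd1 hd2 hc2 (by unfold wf; simp)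
    (by unfold wf1; simp; linarith) (by unfold wf2; simp; linarith)
  set ρ := min (min (ε / 2) δ) R with hρ
  have hρ0 : 0 < ρ := lt_min (lt_min (by linarith) hδ) hR
  have hρ1 : ρ ≤ ε / 2 := (min_le_left _ _).trans (min_le_left _ _)
  have hρ2 : ρ ≤ δ := (min_le_left _ _).trans (min_le_right _ _)
  have hρ3 : ρ ≤ R := min_le_right _ _
  have h3 := hn ρ hρ0.ne' (by rw [sub_zero, abs_of_pos hρ0]; linarith)
  have h4 := M_in m hδ h hρ0 hρ2
  have h5 := mul_le_mul_of_nonneg_left (hge ρ hρ0.le hρ3) hρ0.le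
  unfold wf at h3
  rw [← hν] at h4
  linarith

/-- all the mass on the outer sphere -/
theorem excl_R {R c : ℝ} (hR : 0 < R) (h : ∀ᵐ y ∂m, ‖y‖ = R) (h0 : c ≤ M m 0)
    (h1 : M m R ≤ c) : Real.exp R - (1 + 2 * R) * Real.exp (-R) - 2 * R ^ 2 ≤ 0 := by
  have e0 : M m 0 = Real.exp (-R) := by
    unfold M
    rw [integral_congr_ae (g := fun _ => Real.exp (-R))]
    · simp
    · filter_upwards [h] with y hy
      rw [A_zero_left (norm_nonneg _), hy]
  have e1 : M m R = (1 - (1 + 2 * R) * Real.exp (-(2 * R))) / (2 * R ^ 2) := by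
    unfold M
    rw [integral_congr_ae (g := fun _ => (1 - (1 + 2 * R) * Real.exp (-(2 * R))) / (2 * R ^ 2))]
    · simp
    · filter_upwards [h] with y hy
      rw [hy, A_closed hR hR]
      unfold g
      simp only [sub_self, abs_zero, neg_zero, Real.exp_zero]
      rw [show R + R = 2 * R by ring]
      congr 1 <;> ring
  rw [e0] at h0
  rw [e1] at h1
  have h2 := h1.trans h0
  rw [div_le_iff₀ (by positivity)] at h2
  have h3 := mul_le_mul_of_nonneg_left h2 (Real.exp_pos R).le
  have e2 : Real.exp R * Real.exp (-R) = 1 := by rw [← Real.exp_add]; simp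
  have e3 : Real.exp R * Real.exp (-(2 * R)) = Real.exp (-R) := by
    rw [← Real.exp_add]; congr 1; ring
  have h4 : Real.exp R * (1 - (1 + 2 * R) * Real.exp (-(2 * R))) =
      Real.exp R - (1 + 2 * R) * Real.exp (-R) := by
    rw [mul_sub, mul_one, mul_left_comm, e3]
  have h5 : Real.exp R * (Real.exp (-R) * (2 * R ^ 2)) = 2 * R ^ 2 := by
    rw [← mul_assoc, e2, one_mul]
  rw [h4, h5] at h3
  linarith

end

end Pool.Agent.Q192.EM
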