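import Mathlib
import Pool.Agent.Q192.EM.Defs

/-! Existence of maximising measures and the first variation. -/

set_option autoImplicit false

open MeasureTheory Metric Set Filter Topology

namespace Pool.Agent.Q192.EM

section

variable {X : Type*} [MetricSpace X] [CompactSpace X] [MeasurableSpace X] [BorelSpace X]

/-- potential -/
noncomputable def pot (μ : Measure X) (x : X) : ℝ := ∫ y, Real.exp (-dist x y) ∂μ

omit [CompactSpace X] [MeasurableSpace X] [BorelSpace X] in
theorem ker_bd (x y : X) : ‖Real.exp (-dist x y)‖ ≤ 1 := by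
  rw [Real.norm_eq_abs, abs_of_pos (Real.exp_pos _), Real.exp_le_one_iff]
  linarith [dist_nonneg (x := x) (y := y)]

omit [CompactSpace X] in
theorem ker_int (μ : Measure X) [IsFiniteMeasure μ] (x : X) :
    Integrable (fun y => Real.exp (-dist x y)) μ := by
  refine Integrable.of_bound (C := 1) ?_ (Eventually.of_forall fun y => ker_bd x y)
  exact Continuous.aestronglyMeasurable (by fun_prop)

theorem pot_cont (μ : Measure X) [IsFiniteMeasure μ] : Continuous (pot μ) := by
  unfold pot
  refine continuous_of_dominated (bound := fun _ => 1) ?_ ?_ (integrable_const _) ?_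
  · exact fun x => (ker_int μ x).aestronglyMeasurable
  · exact fun x => Eventually.of_forall fun y => ker_bd x y
  · exact Eventually.of_forall fun y => by fun_prop

theorem pot_int (μ ν : Measure X) [IsFiniteMeasure μ] [IsFiniteMeasure ν] :
    Integrable (pot μ) ν := by
  refine Integrable.of_bound (C := (μ.real univ)) (pot_cont μ).aestronglyMeasurable
    (Eventually.of_forall fun x => ?_)
  unfold pot
  refine (norm_integral_le_of_norm_le_const (Eventually.of_forall fun y => ker_bd x y)).trans ?_
  rw [one_mul]

theorem energy_mix (μ : Measure X) [IsProbabilityMeasure μ] (x : X) {t : ℝ} (h0 : 0 ≤ t)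
    (h1 : t ≤ 1) :
    energy (ENNReal.ofReal (1 - t) • μ + ENNReal.ofReal t • Measure.dirac x) =
      (1 - t) ^ 2 * energy μ + 2 * t * (1 - t) * pot μ x + t ^ 2 := by
  set ν := ENNReal.ofReal (1 - t) • μ + ENNReal.ofReal t • Measure.dirac x with hν
  have f1 : IsFiniteMeasure (ENNReal.ofReal (1 - t) • μ) := by
    exact Measure.smul_finite _ ENNReal.ofReal_ne_top
  have f2 : IsFiniteMeasure (ENNReal.ofReal t • Measure.dirac x) := by
    exact Measure.smul_finite _ ENNReal.ofReal_ne_top
  have hint : ∀ f : X → ℝ, Integrable f μ → Integrable f (Measure.dirac x) →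
      ∫ z, f z ∂ν = (1 - t) * ∫ z, f z ∂μ + t * f x := by
    intro f hf1 hf2
    rw [hν, integral_add_measure (hf1.smul_measure ENNReal.ofReal_ne_top)
      (hf2.smul_measure ENNReal.ofReal_ne_top), integral_smul_measure, integral_smul_measure,
      integral_dirac, ENNReal.toReal_ofReal (by linarith), ENNReal.toReal_ofReal h0]
    rfl
  have hp : ∀ z, ∫ y, Real.exp (-dist z y) ∂ν = (1 - t) * pot μ z + t * Real.exp (-dist z x) := by
    intro z
    exact hint _ (ker_int μ z) (ker_int _ z)
  have hk : Integrable (fun z => Real.exp (-dist z x)) μ := by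
    refine (ker_int μ x).congr (Eventually.of_forall fun z => ?_)
    simp only [dist_comm]
  have hcont : Continuous (fun z => (1 - t) * pot μ z + t * Real.exp (-dist z x)) :=
    (continuous_const.mul (pot_cont μ)).add (by fun_prop)
  unfold energy
  simp_rw [hp]
  have hI : Integrable (fun z => (1 - t) * pot μ z + t * Real.exp (-dist z x)) μ :=
    ((pot_int μ μ).const_mul _).add (hk.const_mul _)
  rw [hint _ hI (integrable_dirac (by simp)),
    integral_add ((pot_int μ μ).const_mul _) (hk.const_mul _), integral_const_mul,
    integral_const_mul]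
  have e1 : ∫ z, Real.exp (-dist z x) ∂μ = pot μ x := by
    unfold pot
    simp_rw [dist_comm]
  rw [e1, dist_self]
  unfold pot
  simp only [neg_zero, Real.exp_zero]
  ring

/-- first variation -/
theorem first_var {μ : Measure X} (h : IsMaximising μ) (x : X) : energy μ ≤ pot μ x := by
  obtain ⟨hp, hmin⟩ := h
  by_contra hcon
  push Not at hcon
  set d := energy μ - pot μ x with hd
  have hd0 : 0 < d := by rw [hd]; linarith
  set K := |energy μ - 2 * pot μ x + 1| + 1 with hK
  have hK0 : 1 ≤ K := by rw [hK]; linarith [abs_nonneg (energy μ - 2 * pot μ x + 1)]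
  set t := min (1 / 2) (d / K) with ht
  have ht0 : 0 < t := lt_min (by norm_num) (by positivity)
  have ht1 : t ≤ 1 / 2 := min_le_left _ _
  have ht2 : t * K ≤ d := by
    have : t ≤ d / K := min_le_right _ _
    rwa [le_div_iff₀ (by linarith)] at this
  have hprob : IsProbabilityMeasure
      (ENNReal.ofReal (1 - t) • μ + ENNReal.ofReal t • Measure.dirac x) := by
    constructor
    simp only [Measure.coe_add, Measure.coe_smul, Pi.add_apply, Pi.smul_apply, measure_univ,
      smul_eq_mul, mul_one]
    rw [← ENNReal.ofReal_add (by linarith) ht0.le]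
    simp
  have h1 := hmin _ hprob
  rw [energy_mix μ x ht0.le (by linarith)] at h1
  have h2 : t * (2 * d - t * (energy μ - 2 * pot μ x + 1)) ≤ 0 := by
    rw [hd]
    nlinarith
  have h3 : t * (energy μ - 2 * pot μ x + 1) ≤ t * K := by
    apply mul_le_mul_of_nonneg_left _ ht0.le
    rw [hK]
    linarith [le_abs_self (energy μ - 2 * pot μ x + 1)]
  have h4 : 0 < 2 * d - t * (energy μ - 2 * pot μ x + 1) := by linarith
  have := mul_pos ht0 h4
  linarith

/-- the potential is constant on the support -/
theorem pot_support {μ : Measure X} (h : IsMaximising μ) {x : X} (hx : x ∈ μ.support) :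
    pot μ x = energy μ := by
  have hp := h.1
  have h1 : ∫ z, (pot μ z - energy μ) ∂μ = 0 := by
    rw [integral_sub (pot_int μ μ) (integrable_const _)]
    simp [energy, pot]
  have hI : Integrable (fun z => pot μ z - energy μ) μ := (pot_int μ μ).sub (integrable_const _)
  rw [integral_eq_zero_iff_of_nonneg (fun z => by
    have := first_var h z
    simp only [Pi.zero_apply]
    linarith) hI] at h1
  by_contra hne
  have hop : IsOpen {z : X | pot μ z ≠ energy μ} := isOpen_ne_fun (pot_cont μ) continuous_const
  have h2 : μ {z : X | pot μ z ≠ energy μ} = 0 := by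
    rw [measure_eq_zero_iff_ae_notMem]
    filter_upwards [h1] with z hz h3
    apply h3
    simp only [Pi.zero_apply] at hz
    linarith
  exact Measure.subset_compl_support_of_isOpen hop h2 hne hx

/-- existence -/
theorem exists_maximising [Nonempty X] : ∃ μ : Measure X, IsMaximising μ := by
  have hcont : Continuous (fun μ : ProbabilityMeasure X => energy (μ : Measure X)) := by
    set f : BoundedContinuousFunction (X × X) ℝ :=
      BoundedContinuousFunction.mkOfCompact ⟨fun z : X × X => Real.exp (-dist z.1 z.2), by fun_prop⟩
      with hf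
    have h1 : Continuous (fun μ : ProbabilityMeasure X => μ.prod μ) :=
      ProbabilityMeasure.continuous_prod.comp (continuous_id.prodMk continuous_id)
    have h2 : Continuous (fun μ : ProbabilityMeasure (X × X) => ∫ z, f z ∂(μ : Measure (X × X))) := by
      rw [continuous_iff_continuousAt]
      intro μ
      exact (ProbabilityMeasure.tendsto_iff_forall_integral_tendsto.1 tendsto_id) f
    have h3 := h2.comp h1
    refine h3.congr fun μ => ?_
    simp only [Function.comp]
    rw [ProbabilityMeasure.toMeasure_prod, integral_prod]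
    · rfl
    · exact f.integrable _
  obtain ⟨μ, -, hμ⟩ := isCompact_univ.exists_isMinOn (s := (univ : Set (ProbabilityMeasure X)))
    (by
      obtain ⟨x⟩ := ‹Nonempty X›
      exact ⟨⟨Measure.dirac x, inferInstance⟩, mem_univ _⟩) hcont.continuousOn
  refine ⟨μ, μ.2, fun ν hν => ?_⟩
  exact hμ (mem_univ (⟨ν, hν⟩ : ProbabilityMeasure X))

end

end Pool.Agent.Q192.EM
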