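import Mathlib
import Pool.Agent.Q192.EM.Rad
import Pool.Agent.Q192.EM.Var

/-! The support of maximising measures of balls in three dimensions. -/

set_option autoImplicit false

open MeasureTheory Metric Set Filter Topology
open scoped ENNReal NNReal RealInnerProductSpace

namespace Pool.Agent.Q192.EM

open Pool.Agent.H329R3.PM (E)

theorem h_pos {R : ℝ} (hR : 3 ≤ R) :
    0 < Real.exp R - (1 + 2 * R) * Real.exp (-R) - 2 * R ^ 2 := by
  obtain ⟨t, rfl⟩ : ∃ t, R = 3 + t := ⟨R - 3, by ring⟩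
  have ht : 0 ≤ t := by linarith
  have h3 : (20 : ℝ) ≤ Real.exp 3 := by
    have h1 := Real.exp_one_gt_d9
    have h2 : Real.exp 3 = Real.exp 1 ^ 3 := by rw [← Real.exp_nat_mul]; norm_num
    rw [h2]
    have h4 : (2.7182818283 : ℝ) ^ 3 ≤ Real.exp 1 ^ 3 := pow_le_pow_left₀ (by norm_num) h1.le 3
    have : (20 : ℝ) ≤ 2.7182818283 ^ 3 := by norm_num
    linarith
  have h4 := Real.quadratic_le_exp_of_nonneg ht
  have h5 : 20 * (1 + t + t ^ 2 / 2) ≤ Real.exp (3 + t) := by
    rw [Real.exp_add]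
    exact mul_le_mul h3 h4 (by positivity) (Real.exp_pos _).le
  have h6 : (1 + 2 * (3 + t)) * Real.exp (-(3 + t)) ≤ 7 / 20 := by
    rw [Real.exp_neg, ← div_eq_mul_inv, div_le_iff₀ (Real.exp_pos _)]
    nlinarith
  nlinarith

/-- the main theorem on radii, for measures on the whole space -/
theorem core {R c : ℝ} (hR : 0 < R)
    (hh : 0 < Real.exp R - (1 + 2 * R) * Real.exp (-R) - 2 * R ^ 2)
    (m : Measure (E 3)) [IsProbabilityMeasure m] (T : Set ℝ) {b : ℝ} (hbT : b ∈ T)
    (hbmin : b ∈ lowerBounds T) (hTR : ∀ s ∈ T, 0 ≤ s ∧ s ≤ R) (hae : ∀ᵐ y ∂m, ‖y‖ ∈ T)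
    (hPge : ∀ x : E 3, ‖x‖ ≤ R → c ≤ P m x)
    (hPeq : ∀ x : E 3, ‖x‖ ≤ R → ‖x‖ ∈ T → P m x = c) {ε : ℝ} (hε : 0 < ε)
    (hgap : ∀ s ∈ T, 0 < s → ε ≤ s) (hzero : b = 0 → 0 < m (ball 0 ε)) : False := by
  have hge : ∀ ρ, 0 ≤ ρ → ρ ≤ R → c ≤ M m ρ := fun ρ h0 h1 =>
    M_ge m hR (fun x hx => hPge x hx.le) h0 h1
  have hbmin' : ∀ᵐ y ∂m, b ≤ ‖y‖ := by
    filter_upwards [hae] with y hy
    exact hbmin hy
  obtain ⟨hb0, hbR⟩ := hTR b hbT
  rcases hb0.eq_or_lt with h0 | h0
  · -- an isolated point of the support at the origin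
    have hae2 : ∀ᵐ y ∂m, y = 0 ∨ ε ≤ ‖y‖ := by
      filter_upwards [hae] with y hy
      rcases (norm_nonneg y).eq_or_lt with h1 | h1
      · left
        exact norm_eq_zero.1 h1.symm
      · right
        exact hgap _ hy h1
    have hball := hzero h0.symm
    have hat : 0 < m.real {0} := by
      rw [measureReal_def, ENNReal.toReal_pos_iff]
      refine ⟨?_, measure_lt_top _ _⟩
      refine lt_of_lt_of_le hball ?_
      apply measure_mono_ae
      filter_upwards [hae2] with y hy hyb
      rcases hy with hy | hy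
      · exact mem_singleton_iff.2 hy
      · exfalso
        have : ‖y‖ < ε := mem_ball_zero_iff.1 hyb
        linarith
    have h1 : M m 0 = P m 0 := by
      unfold M P
      refine integral_congr_ae (Eventually.of_forall fun y => ?_)
      simp only
      rw [A_zero_left (norm_nonneg _), zero_sub, norm_neg]
    have h2 : P m 0 = c := hPeq 0 (by rw [norm_zero]; exact hR.le) (by rw [norm_zero, h0]; exact hbT)
    exact excl_zero m hε hR hae2 hat hge (by rw [h1, h2])
  · have hMb : M m b ≤ c := by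
      apply M_le m h0
      intro x hx
      exact (hPeq x (by rw [hx]; exact hbR) (by rw [hx]; exact hbT)).le
    rcases hbR.eq_or_lt with h1 | h1
    · -- all the mass on the outer sphere
      have hae2 : ∀ᵐ y ∂m, ‖y‖ = R := by
        filter_upwards [hae, hbmin'] with y hy hy2
        rw [h1] at hy2
        exact le_antisymm (hTR _ hy).2 hy2
      rw [h1] at hMb
      have := excl_R m hR hae2 (hge 0 le_rfl hR.le) hMb
      linarith
    · exact excl_mid m h0 h1 hbmin' hge hMb

/-- the main theorem on radii -/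
theorem radii {R : ℝ} (hR : 0 < R)
    (hh : 0 < Real.exp R - (1 + 2 * R) * Real.exp (-R) - 2 * R ^ 2)
    {μ : Measure (closedBall (0 : E 3) R)} (hμ : IsMaximising μ) (S : Set ℝ)
    (hS : μ.support = {x : closedBall (0 : E 3) R | ‖(x : E 3)‖ ∈ S}) {ε : ℝ} (hε : 0 < ε) :
    ∃ s ∈ S, 0 < s ∧ s < ε := by
  by_contra hcon
  push Not at hcon
  have hprob := hμ.1
  have hcs : CompactSpace (closedBall (0 : E 3) R) :=
    isCompact_iff_compactSpace.1 (isCompact_closedBall _ _)
  have hmv : Measurable (Subtype.val : closedBall (0 : E 3) R → E 3) := measurable_subtype_coe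
  have hpm : IsProbabilityMeasure (μ.map Subtype.val) :=
    Measure.isProbabilityMeasure_map hmv.aemeasurable
  have hP : ∀ x : closedBall (0 : E 3) R, P (μ.map Subtype.val) (x : E 3) = pot μ x := by
    intro x
    unfold P pot
    rw [integral_map hmv.aemeasurable (by
      exact Continuous.aestronglyMeasurable (by fun_prop))]
    refine integral_congr_ae (Eventually.of_forall fun y => ?_)
    simp only
    rw [Subtype.dist_eq, dist_eq_norm]
  set T : Set ℝ := (fun x : closedBall (0 : E 3) R => ‖(x : E 3)‖) '' μ.support with hT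
  have hTc : IsCompact T := by
    have h1 : IsCompact μ.support := Measure.isClosed_support.isCompact
    exact h1.image (by fun_prop)
  have hTne : T.Nonempty := (Measure.nonempty_support hprob.ne_zero).image _
  have hae : ∀ᵐ y ∂(μ.map Subtype.val), ‖y‖ ∈ T := by
    rw [ae_map_iff hmv.aemeasurable (hTc.measurableSet.preimage measurable_norm)]
    filter_upwards [Measure.support_mem_ae (μ := μ)] with y hy
    exact ⟨y, hy, rfl⟩
  have hTS : ∀ s ∈ T, s ∈ S ∧ 0 ≤ s ∧ s ≤ R := by
    rintro s ⟨x, hx, rfl⟩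
    rw [hS] at hx
    exact ⟨hx, norm_nonneg _, mem_closedBall_zero_iff.1 x.2⟩
  obtain ⟨b, hbT, hbmin⟩ := hTc.exists_isLeast hTne
  refine core (c := energy μ) hR hh (μ.map Subtype.val) T hbT hbmin (fun s hs => (hTS s hs).2) hae
    ?_ ?_ hε (fun s hs h => hcon s (hTS s hs).1 h) ?_
  · intro x hx
    have h1 := hP ⟨x, mem_closedBall_zero_iff.2 hx⟩
    rw [h1]
    exact first_var hμ _
  · intro x hx hxT
    have h1 := hP ⟨x, mem_closedBall_zero_iff.2 hx⟩
    rw [h1]
    apply pot_support hμ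
    rw [hS]
    exact (hTS _ hxT).1
  · intro hb
    rw [Measure.map_apply hmv measurableSet_ball]
    have hz : (⟨0, mem_closedBall_self hR.le⟩ : closedBall (0 : E 3) R) ∈ μ.support := by
      rw [hS]
      show ‖(0 : E 3)‖ ∈ S
      rw [norm_zero, ← hb]
      exact (hTS b hbT).1
    rw [Measure.mem_support_iff_forall] at hz
    apply hz
    refine (isOpen_ball.preimage continuous_subtype_val).mem_nhds ?_
    show (0 : E 3) ∈ ball (0 : E 3) ε
    exact mem_ball_self hε

end Pool.Agent.Q192.EM
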